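import Pool.Agent.Helper34.GF.F3

/-!
Project GF-H (MP_973bc8_pr): the three facts about the field of square ice used for the half plane theorem,
along the iterated filter (`D ↑ ℤ²` first, then `δ → 0`), delocalised case.
-/

open MeasureTheory Filter Topology

namespace GH

open RP4 (V avg Om dom Deloc)
open GF GF.Lat

/-- the limit of the characteristic function of a pairing -/
theorem src_cos (hd : Deloc) {F : Pl → ℝ} (hF : Ne F) :
    Tendsto (fun p : ℝ × Finset V => ev p (fun i => Real.cos (XX F i))) itf
      (𝓝 (Real.exp (-(Kc hd * energy2 F F / 2)))) := by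
  rw [tendsto_iff_ultrafilter]
  intro U hU
  obtain ⟨χ, hχ⟩ := rad_fun (latFld hd U hU)
  have h1 := all_gauss (latFld hd U hU) χ hχ F hF
  rw [latFld_K] at h1
  rw [← h1]
  exact latFld_L hd U hU (latFld_ok_of_bdd hd U hU (B := 1) fun i => Real.abs_cos_le_one _)

/-- the limit of the covariance of two pairings -/
theorem src_cov (hd : Deloc) {F G : Pl → ℝ} (hF : Ne F) (hG : Ne G) :
    Tendsto (fun p : ℝ × Finset V => ev p (fun i => XX F i * XX G i)) itf
      (𝓝 (Kc hd * energy2 F G)) := by
  rw [tendsto_iff_ultrafilter]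
  intro U hU
  have h1 := (latFld hd U hU).two F G hF hG
  rw [latFld_K] at h1
  rw [← h1]
  exact latFld_L hd U hU ((latFld hd U hU).ok_mul _ _ ((latFld hd U hU).ok_X F hF)
    ((latFld hd U hU).ok_X G hG))

/-- the two versions of the pairing are close -/
theorem src_close (hd : Deloc) {F : Pl → ℝ} (hF : Ne F) :
    Tendsto (fun p : ℝ × Finset V => ev p (fun i => (YY F i - XX F i) ^ 2)) itf (𝓝 0) := by
  rw [tendsto_iff_ultrafilter]
  intro U hU
  have h1 := latFld_YY hd U hU hF
  rw [← h1]
  have h2 : (latFld hd U hU).Ok (fun i => YY F i - (latFld hd U hU).X F i) := by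
    have h3 := (latFld hd U hU).ok_add _ _ (latFld_ok_YY hd U hU hF)
      ((latFld hd U hU).ok_mul _ _ ((latFld hd U hU).ok_const (-1)) ((latFld hd U hU).ok_X F hF))
    simpa [sub_eq_add_neg] using h3
  have h4 := (latFld hd U hU).ok_mul _ _ h2 h2
  have h5 : (latFld hd U hU).Ok (fun i => (YY F i - (latFld hd U hU).X F i) ^ 2) := by
    simpa [pow_two] using h4
  exact latFld_L hd U hU h5

end GH
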